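import Mathlib

/-!
Golomb's problem on tilings of rectangles by consecutive integer squares: if the squares with
sides m, m+1, ..., M tile a rectangle, then 3 m + 4 ≤ M.
-/

namespace Pool.Agent.Results.MP_db401f_co.SmallRatio

open Set

/-- The closed rectangle with one vertex z, sides of length a in direction w and of length b in
the direction of w turned by a right angle (a subset of the plane ℂ; w is a unit vector). -/
def rectangle (z w : ℂ) (a b : ℝ) : Set ℂ :=
  {p | ∃ α β : ℝ, 0 ≤ α ∧ α ≤ a ∧ 0 ≤ β ∧ β ≤ b ∧ p = z + w * (α + β * Complex.I)}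

/-- The squares with sides m, m+1, ..., M (one of each) tile a rectangle: they can be placed in
the plane (square k has a vertex `z k` and a side in direction `w k`, no condition on the
directions) such that their interiors are pairwise disjoint and their union is a rectangle. -/
def TilesRectangle (m M : ℕ) : Prop :=
  ∃ (z w : ℕ → ℂ) (z₀ w₀ : ℂ) (a b : ℝ), 0 < a ∧ 0 < b ∧ ‖w₀‖ = 1 ∧
    (∀ k : ℕ, m ≤ k → k ≤ M → ‖w k‖ = 1) ∧
    (∀ j k : ℕ, m ≤ j → j ≤ M → m ≤ k → k ≤ M → j ≠ k →
      Disjoint (interior (rectangle (z j) (w j) j j)) (interior (rectangle (z k) (w k) k k))) ∧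
    (⋃ k ∈ Icc m M, rectangle (z k) (w k) k k) = rectangle z₀ w₀ a b

/-- half-open tilings of a rectangle by a finite family of squares -/
private structure T {ι : Type} (S : Finset ι) (x y s : ι → ℝ) (a b c d : ℝ) : Prop where
  pos : ∀ i ∈ S, 0 < s i
  xl : ∀ i ∈ S, a ≤ x i
  xr : ∀ i ∈ S, x i + s i ≤ b
  yl : ∀ i ∈ S, c ≤ y i
  yr : ∀ i ∈ S, y i + s i ≤ d
  uniq : ∀ i ∈ S, ∀ j ∈ S, ∀ p q : ℝ, x i ≤ p → p < x i + s i → y i ≤ q → q < y i + s i →
    x j ≤ p → p < x j + s j → y j ≤ q → q < y j + s j → i = j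
  cov : ∀ p q : ℝ, a ≤ p → p < b → c ≤ q → q < d →
    ∃ i ∈ S, x i ≤ p ∧ p < x i + s i ∧ y i ≤ q ∧ q < y i + s i

variable {ι : Type}

private lemma T.left {S : Finset ι} {x y s : ι → ℝ} {a b c d : ℝ} (h : T S x y s a b c d)
    {p q : ℝ} (hp : a < p) (hpb : p ≤ b) (hq : c ≤ q) (hqd : q < d) :
    ∃ i ∈ S, x i < p ∧ p ≤ x i + s i ∧ y i ≤ q ∧ q < y i + s i := by
  classical
  set F := S.filter (fun i => x i < p ∧ y i ≤ q ∧ q < y i + s i) with hF
  have hne : F.Nonempty := by
    obtain ⟨i, hi, h1, h2, h3, h4⟩ := h.cov a q le_rfl (lt_of_lt_of_le hp hpb) hq hqd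
    exact ⟨i, by simp only [hF, Finset.mem_filter]; exact ⟨hi, lt_of_le_of_lt h1 hp, h3, h4⟩⟩
  obtain ⟨i, hiF, hmax⟩ := Finset.exists_max_image F (fun i => x i + s i) hne
  obtain ⟨hi, h1, h2, h3⟩ := by simpa only [hF, Finset.mem_filter] using hiF
  refine ⟨i, hi, h1, ?_, h2, h3⟩
  by_contra hlt
  push Not at hlt
  have hpos := h.pos i hi
  have hxl := h.xl i hi
  obtain ⟨j, hj, g1, g2, g3, g4⟩ := h.cov (x i + s i) q (by linarith) (by linarith) hq hqd
  have hjF : j ∈ F := by
    simp only [hF, Finset.mem_filter]; exact ⟨hj, lt_of_le_of_lt g1 hlt, g3, g4⟩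
  have := hmax j hjF
  
  linarith

private lemma T.reflX {S : Finset ι} {x y s : ι → ℝ} {a b c d : ℝ} (h : T S x y s a b c d) :
    T S (fun i => -(x i + s i)) y s (-b) (-a) c d where
  pos := h.pos
  xl := fun i hi => by have := h.xr i hi; linarith
  xr := fun i hi => by have := h.xl i hi; linarith
  yl := h.yl
  yr := h.yr
  uniq := fun i hi j hj p q h1 h2 h3 h4 g1 g2 g3 g4 => by
    
    have e1 := h.pos i hi
    have e2 := h.pos j hj
    refine h.uniq i hi j hj (max (x i) (x j)) q (le_max_left _ _) ?_ h3 h4 (le_max_right _ _) ?_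
      g3 g4
    · exact max_lt (by linarith) (by linarith)
    · exact max_lt (by linarith) (by linarith)
  cov := fun p q hp hpb hq hqd => by
    obtain ⟨i, hi, h1, h2, h3, h4⟩ := h.left (p := -p) (q := q) (by linarith) (by linarith) hq hqd
    exact ⟨i, hi, by linarith, by linarith, h3, h4⟩

private lemma T.swap {S : Finset ι} {x y s : ι → ℝ} {a b c d : ℝ} (h : T S x y s a b c d) :
    T S y x s c d a b where
  pos := h.pos
  xl := h.yl
  xr := h.yr
  yl := h.xl
  yr := h.xr
  uniq := fun i hi j hj p q h1 h2 h3 h4 g1 g2 g3 g4 =>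
    h.uniq i hi j hj q p h3 h4 h1 h2 g3 g4 g1 g2
  cov := fun p q hp hpb hq hqd => by
    obtain ⟨i, hi, h1, h2, h3, h4⟩ := h.cov q p hq hqd hp hpb
    exact ⟨i, hi, h3, h4, h1, h2⟩

private lemma T.reflY {S : Finset ι} {x y s : ι → ℝ} {a b c d : ℝ} (h : T S x y s a b c d) :
    T S x (fun i => -(y i + s i)) s a b (-d) (-c) :=
  h.swap.reflX.swap

/-- a square over the right upper corner of a bottom square -/
private lemma T.cross_right {S : Finset ι} {x y s : ι → ℝ} {a b c d : ℝ}
    (h : T S x y s a b c d) (inj : ∀ i ∈ S, ∀ j ∈ S, s i = s j → i = j)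
    {i : ι} (hi : i ∈ S) (hy : y i = c) (ht : c + s i < d)
    {A : ι} (hA : A ∈ S) (hAy : y A = c + s i) (hA1 : x A ≤ x i + s i)
    (hA2 : x i + s i < x A + s A) :
    ∃ u ∈ S, ∃ v ∈ S, u ≠ v ∧ s u + s v ≤ s i ∧ y u = c := by
  have pi := h.pos i hi
  have pA := h.pos A hA
  have hxA := h.xr A hA
  have hxi := h.xl i hi
  obtain ⟨B, hB, b1, b2, b3, b4⟩ := h.cov (x i + s i) c (by linarith) (by linarith) le_rfl
    (by linarith)
  have hyB : y B = c := le_antisymm b3 (h.yl B hB)
  have key : ∀ D ∈ S, x D ≤ x i + s i → x i + s i < x D + s D → y D < c + s i →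
      y D + s D ≤ c + s i := by
    intro D hD d1 d2 d3
    by_contra hlt
    push Not at hlt
    have := h.uniq A hA D hD (x i + s i) (c + s i) hA1 hA2 (by linarith) (by linarith)
      d1 d2 (by linarith) hlt
    rw [← this] at d3
    linarith
  have k1 := key B hB b1 b2 (by linarith)
  have hBi : B ≠ i := by
    rintro rfl
    linarith
  have hs : s B ≠ s i := fun e => hBi (inj B hB i hi e)
  have hlt : s B < s i := lt_of_le_of_ne (by linarith) hs
  have pB := h.pos B hB
  obtain ⟨D, hD, d1, d2, d3, d4⟩ := h.cov (x i + s i) (c + s B) (by linarith) (by linarith)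
    (by linarith) (by linarith)
  have hyD : y D = c + s B := by
    refine le_antisymm d3 ?_
    by_contra hlt'
    push Not at hlt'
    have hyl := h.yl D hD
    have := h.uniq B hB D hD (x i + s i) (y D) b1 b2 (by linarith) (by linarith)
      d1 d2 le_rfl (by have := h.pos D hD; linarith)
    rw [← this] at d4
    linarith
  have k2 := key D hD d1 d2 (by linarith)
  refine ⟨B, hB, D, hD, ?_, by linarith, hyB⟩
  rintro rfl
  linarith

/-- Lemma B -/
private lemma T.bottom {S : Finset ι} {x y s : ι → ℝ} {a b c d : ℝ}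
    (h : T S x y s a b c d) (inj : ∀ i ∈ S, ∀ j ∈ S, s i = s j → i = j)
    {i : ι} (hi : i ∈ S) (hy : y i = c) (ht : c + s i < d) :
    ∃ u ∈ S, ∃ v ∈ S, u ≠ v ∧ s u + s v ≤ s i ∧ (y u = c ∨ x u = x i) := by
  have pi := h.pos i hi
  have hxi := h.xl i hi
  have hxr := h.xr i hi
  -- squares on the top level above i
  have top : ∀ p, x i ≤ p → p < x i + s i → ∃ A ∈ S, x A ≤ p ∧ p < x A + s A ∧
      y A = c + s i := by
    intro p p1 p2
    obtain ⟨A, hA, a1, a2, a3, a4⟩ := h.cov p (c + s i) (by linarith) (by linarith)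
      (by linarith) ht
    refine ⟨A, hA, a1, a2, le_antisymm a3 ?_⟩
    by_contra hlt
    push Not at hlt
    have hyl := h.yl A hA
    have := h.uniq A hA i hi p (y A) a1 a2 le_rfl (by have := h.pos A hA; linarith)
      p1 p2 (by linarith) (by linarith)
    rw [this] at a4
    linarith
  obtain ⟨A, hA, a1, a2, a3⟩ := top (x i) le_rfl (by linarith)
  have hAi : A ≠ i := by
    rintro rfl
    linarith
  rcases lt_or_eq_of_le a1 with hlt | heq
  · -- A lies over the left upper corner: reflect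
    have h' := h.reflX
    obtain ⟨u, hu, v, hv, huv, hs, hyu⟩ := h'.cross_right inj hi hy ht hA a3
      (by linarith) (by linarith)
    exact ⟨u, hu, v, hv, huv, hs, Or.inl hyu⟩
  · have hs : s A ≠ s i := fun e => hAi (inj A hA i hi e)
    have pA := h.pos A hA
    rcases lt_or_gt_of_ne hs with hlt | hgt
    · obtain ⟨B, hB, b1, b2, b3⟩ := top (x i + s A) (by linarith) (by linarith)
      have pB := h.pos B hB
      have hAB : A ≠ B := by
        rintro rfl
        linarith
      have hxB : x B = x i + s A := by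
        refine le_antisymm b1 ?_
        by_contra hlt'
        push Not at hlt'
        refine hAB (h.uniq A hA B hB (max (x A) (x B)) (c + s i) (le_max_left _ _) ?_
          (by linarith) (by linarith) (le_max_right _ _) ?_ (by linarith) (by linarith))
        · exact max_lt (by linarith) (by linarith)
        · exact max_lt (by linarith) (by linarith)
      by_cases hr : x B + s B ≤ x i + s i
      · exact ⟨A, hA, B, hB, hAB, by linarith, Or.inr heq⟩
      · push Not at hr
        obtain ⟨u, hu, v, hv, huv, hs', hyu⟩ := h.cross_right inj hi hy ht hB b3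
          (by linarith) hr
        exact ⟨u, hu, v, hv, huv, hs', Or.inl hyu⟩
    · obtain ⟨u, hu, v, hv, huv, hs', hyu⟩ := h.cross_right inj hi hy ht hA a3
        (by linarith) (by linarith)
      exact ⟨u, hu, v, hv, huv, hs', Or.inl hyu⟩

private lemma T.corner {S : Finset ι} {x y s : ι → ℝ} {a b c d μ : ℝ}
    (h : T S x y s a b c d) (inj : ∀ i ∈ S, ∀ j ∈ S, s i = s j → i = j)
    (hμ : ∀ i ∈ S, μ ≤ s i) (hns : ∀ i ∈ S, s i < b - a ∧ s i < d - c)
    (hab : a < b) (hcd : c < d) :
    ∃ i ∈ S, x i = a ∧ y i = c ∧ 3 * μ < s i := by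
  have two : ∀ u ∈ S, ∀ v ∈ S, u ≠ v → 2 * μ < s u + s v := by
    intro u hu v hv huv
    have h1 := hμ u hu
    have h2 := hμ v hv
    have h3 : s u ≠ s v := fun e => huv (inj u hu v hv e)
    rcases lt_or_gt_of_ne h3 with h4 | h4 <;> linarith
  obtain ⟨i, hi, i1, i2, i3, i4⟩ := h.cov a c le_rfl hab le_rfl hcd
  have hx : x i = a := le_antisymm i1 (h.xl i hi)
  have hy : y i = c := le_antisymm i3 (h.yl i hi)
  refine ⟨i, hi, hx, hy, ?_⟩
  obtain ⟨u, hu, v, hv, huv, hs, hb⟩ := h.bottom inj hi hy (by have := hns i hi; linarith)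
  have hv' := hμ v hv
  have hu2 : 2 * μ < s u := by
    rcases hb with hb | hb
    · obtain ⟨u', hu', v', hv', huv', hs', -⟩ := h.bottom inj hu hb
        (by have := hns u hu; linarith)
      have := two u' hu' v' hv' huv'
      linarith
    · obtain ⟨u', hu', v', hv', huv', hs', -⟩ := h.swap.bottom inj hu (hb.trans hx)
        (by have := hns u hu; linarith)
      have := two u' hu' v' hv' huv'
      linarith
  linarith

private lemma T.nospan {S : Finset ι} {x y s : ι → ℝ} {a b c d μ : ℝ} [DecidableEq ι]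
    (h : T S x y s a b c d) (inj : ∀ i ∈ S, ∀ j ∈ S, s i = s j → i = j)
    (hμ : ∀ i ∈ S, μ ≤ s i) (hns : ∀ i ∈ S, s i < b - a ∧ s i < d - c)
    (hab : a < b) (hcd : c < d) :
    4 ≤ (S.filter (fun i => 3 * μ < s i)).card := by
  obtain ⟨i1, m1, a1, b1, c1⟩ := h.corner inj hμ hns hab hcd
  obtain ⟨i2, m2, a2, b2, c2⟩ := h.reflX.corner inj hμ
    (fun i hi => by have := hns i hi; constructor <;> linarith) (by linarith) hcd
  obtain ⟨i3, m3, a3, b3, c3⟩ := h.reflY.corner inj hμ
    (fun i hi => by have := hns i hi; constructor <;> linarith) hab (by linarith)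
  obtain ⟨i4, m4, a4, b4, c4⟩ := h.reflX.reflY.corner inj hμ
    (fun i hi => by have := hns i hi; constructor <;> linarith) (by linarith) (by linarith)
  
  have n1 := hns i1 m1
  have n2 := hns i2 m2
  have n3 := hns i3 m3
  have n4 := hns i4 m4
  have e12 : i1 ≠ i2 := by rintro rfl; linarith
  have e13 : i1 ≠ i3 := by rintro rfl; linarith
  have e14 : i1 ≠ i4 := by rintro rfl; linarith
  have e23 : i2 ≠ i3 := by rintro rfl; linarith
  have e24 : i2 ≠ i4 := by rintro rfl; linarith
  have e34 : i3 ≠ i4 := by rintro rfl; linarith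
  have hsub : ({i1, i2, i3, i4} : Finset ι) ⊆ S.filter (fun i => 3 * μ < s i) := by
    intro j hj
    simp only [Finset.mem_insert, Finset.mem_singleton] at hj
    simp only [Finset.mem_filter]
    rcases hj with rfl | rfl | rfl | rfl
    · exact ⟨m1, c1⟩
    · exact ⟨m2, c2⟩
    · exact ⟨m3, c3⟩
    · exact ⟨m4, c4⟩
  calc 4 = ({i1, i2, i3, i4} : Finset ι).card := by
        rw [Finset.card_insert_of_notMem, Finset.card_insert_of_notMem,
          Finset.card_insert_of_notMem, Finset.card_singleton]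
        · simpa using e34
        · simp only [Finset.mem_insert, Finset.mem_singleton, not_or]; exact ⟨e23, e24⟩
        · simp only [Finset.mem_insert, Finset.mem_singleton, not_or]; exact ⟨e12, e13, e14⟩
    _ ≤ _ := Finset.card_le_card hsub

private lemma T.cut {S : Finset ι} {x y s : ι → ℝ} {a b c d : ℝ} [DecidableEq ι]
    (h : T S x y s a b c d) (inj : ∀ i ∈ S, ∀ j ∈ S, s i = s j → i = j) (hab : a < b)
    {i j : ι} (hi : i ∈ S) (hsp : s i = b - a) (hj : j ∈ S) (hij : y i + s i ≤ y j) :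
    ∃ S' ⊆ S, S'.card < S.card ∧ 2 ≤ S'.card ∧ ∃ c', c' < d ∧ T S' x y s a b c' d := by
  have pi := h.pos i hi
  have pj := h.pos j hj
  have hxl := h.xl i hi
  have hxr := h.xr i hi
  have hyr := h.yr j hj
  have hyl := h.yl i hi
  set S' := S.filter (fun k => y i + s i ≤ y k) with hS'
  have hjS : j ∈ S' := by simp only [hS', Finset.mem_filter]; exact ⟨hj, hij⟩
  have hiS : i ∉ S' := by
    simp only [hS', Finset.mem_filter, not_and, not_le]; intro _; linarith
  have hsub : S' ⊆ S := Finset.filter_subset _ _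
  have hT : T S' x y s a b (y i + s i) d :=
    { pos := fun k hk => h.pos k (hsub hk)
      xl := fun k hk => h.xl k (hsub hk)
      xr := fun k hk => h.xr k (hsub hk)
      yl := fun k hk => by
        have : k ∈ S.filter (fun k => y i + s i ≤ y k) := hk
        exact (Finset.mem_filter.mp this).2
      yr := fun k hk => h.yr k (hsub hk)
      uniq := fun k hk l hl => h.uniq k (hsub hk) l (hsub hl)
      cov := fun p q h1 h2 h3 h4 => by
        obtain ⟨k, hk, k1, k2, k3, k4⟩ := h.cov p q h1 h2 (by linarith) h4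
        refine ⟨k, ?_, k1, k2, k3, k4⟩
        simp only [hS', Finset.mem_filter]
        refine ⟨hk, ?_⟩
        by_contra hlt
        push Not at hlt
        have := h.uniq k hk i hi p (max (y i) (y k)) k1 k2 (le_max_right _ _)
          (max_lt (by linarith) (by have := h.pos k hk; linarith)) (by linarith) (by linarith)
          (le_max_left _ _) (max_lt (by linarith) hlt)
        rw [this] at k4
        linarith }
  refine ⟨S', hsub, Finset.card_lt_card ⟨hsub, fun hh => hiS (hh hi)⟩, ?_, y i + s i,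
    by linarith, hT⟩
  by_contra hc
  push Not at hc
  have h1 : 0 < S'.card := Finset.card_pos.mpr ⟨j, hjS⟩
  have h2 : S'.card = 1 := by omega
  obtain ⟨k, hk⟩ := Finset.card_eq_one.mp h2
  have hkj : ∀ l ∈ S', l = j := by
    intro l hl
    rw [hk] at hl hjS
    rw [Finset.mem_singleton] at hl hjS
    rw [hl, hjS]
  have hd : y i + s i < d := by linarith
  obtain ⟨l, hl, l1, l2, l3, l4⟩ := hT.cov a (y i + s i) le_rfl hab le_rfl hd
  rw [hkj l hl] at l1 l2 l3 l4
  have hxj := h.xl j hj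
  have hxj' := h.xr j hj
  have hb : b ≤ x j + s j := by
    by_contra hlt
    push Not at hlt
    obtain ⟨l', hl', l1', l2', l3', l4'⟩ := hT.cov (x j + s j) (y i + s i) (by linarith) hlt
      le_rfl hd
    rw [hkj l' hl'] at l2'
    exact lt_irrefl _ l2'
  have hsj : s j = s i := by linarith
  have := inj j hj i hi hsj
  rw [this] at hij
  linarith

private theorem main (s : ι → ℝ) (μ : ℝ) [DecidableEq ι] : ∀ n : ℕ, ∀ (S : Finset ι),
    S.card = n → 2 ≤ n → (∀ i ∈ S, ∀ j ∈ S, s i = s j → i = j) → (∀ i ∈ S, μ ≤ s i) →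
    ∀ (x y : ι → ℝ) (a b c d : ℝ), a < b → c < d → T S x y s a b c d →
    4 ≤ (S.filter (fun i => 3 * μ < s i)).card := by
  intro n
  induction n using Nat.strong_induction_on with
  | _ n ih =>
    intro S hn h2 inj hμ
    have key : ∀ (x y : ι → ℝ) (a b c d : ℝ), a < b → T S x y s a b c d → ∀ i ∈ S,
        s i = b - a → ∀ j ∈ S, y i + s i ≤ y j →
        4 ≤ (S.filter (fun i => 3 * μ < s i)).card := by
      intro x y a b c d hab h i hi hsp j hj hij
      obtain ⟨S', hsub, hcard, hc2, c', hc', hT⟩ := h.cut inj hab hi hsp hj hij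
      have := ih S'.card (by omega) S' rfl hc2
        (fun i hi j hj => inj i (hsub hi) j (hsub hj)) (fun i hi => hμ i (hsub hi))
        x y a b c' d hab hc' hT
      exact this.trans (Finset.card_le_card (Finset.filter_subset_filter _ hsub))
    -- a square which spans the width
    have key2 : ∀ (x y : ι → ℝ) (a b c d : ℝ), a < b → T S x y s a b c d → ∀ i ∈ S,
        s i = b - a → 4 ≤ (S.filter (fun i => 3 * μ < s i)).card := by
      intro x y a b c d hab h i hi hsp
      obtain ⟨j, hj, hji⟩ : ∃ j ∈ S, j ≠ i := by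
        by_contra hcon
        push Not at hcon
        have : S ⊆ {i} := fun j hj => Finset.mem_singleton.mpr (hcon j hj)
        have := Finset.card_le_card this
        rw [Finset.card_singleton] at this
        omega
      have hxl := h.xl i hi
      have hxr := h.xr i hi
      have hxl' := h.xl j hj
      have hxr' := h.xr j hj
      have pi := h.pos i hi
      have pj := h.pos j hj
      by_cases h1 : y i + s i ≤ y j
      · exact key x y a b c d hab h i hi hsp j hj h1
      · by_cases h3 : y j + s j ≤ y i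
        · exact key x (fun i => -(y i + s i)) a b (-d) (-c) hab h.reflY i hi hsp j hj
            (by linarith)
        · push Not at h1 h3
          exfalso
          exact hji (h.uniq j hj i hi (x j) (max (y i) (y j)) le_rfl (by linarith)
            (le_max_right _ _) (max_lt (by linarith) (by linarith)) (by linarith) (by linarith)
            (le_max_left _ _) (max_lt (by linarith) (by linarith)))
    intro x y a b c d hab hcd h
    by_cases hns : ∀ i ∈ S, s i < b - a ∧ s i < d - c
    · exact h.nospan inj hμ hns hab hcd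
    · push Not at hns
      obtain ⟨i, hi, hi'⟩ := hns
      have hxl := h.xl i hi
      have hxr := h.xr i hi
      have hyl := h.yl i hi
      have hyr := h.yr i hi
      by_cases h1 : s i < b - a
      · have h3 := hi' h1
        exact key2 y x c d a b hcd h.swap i hi (by linarith)
      · push Not at h1
        exact key2 x y a b c d hab h i hi (by linarith)

private lemma gap {ι : Type} (S : Finset ι) (f : ι → ℝ) (p : ℝ) :
    ∃ δ : ℝ, 0 < δ ∧ ∀ i ∈ S, p < f i → p + δ < f i := by
  classical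
  induction S using Finset.induction_on with
  | empty => exact ⟨1, one_pos, by simp⟩
  | insert j S hj ih =>
    obtain ⟨δ, hδ, h⟩ := ih
    by_cases hp : p < f j
    · refine ⟨min δ ((f j - p) / 2), lt_min hδ (by linarith), ?_⟩
      intro i hi hpi
      rcases Finset.mem_insert.mp hi with rfl | hi
      · have := min_le_right δ ((f i - p) / 2)
        linarith
      · have := h i hi hpi
        have := min_le_left δ ((f j - p) / 2)
        linarith
    · refine ⟨δ, hδ, ?_⟩
      intro i hi hpi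
      rcases Finset.mem_insert.mp hi with rfl | hi
      · exact absurd hpi hp
      · exact h i hi hpi

private lemma gap2 {ι : Type} (S : Finset ι) (f g : ι → ℝ) :
    ∃ δ : ℝ, 0 < δ ∧ ∀ t : ℝ, 0 < t → t ≤ δ → ∀ i ∈ S, f i < 0 → f i + t * g i < 0 := by
  classical
  induction S using Finset.induction_on with
  | empty => exact ⟨1, one_pos, by simp⟩
  | insert j S hj ih =>
    obtain ⟨δ, hδ, h⟩ := ih
    by_cases hp : f j < 0
    · refine ⟨min δ (-f j / (2 * (1 + |g j|))), lt_min hδ (div_pos (by linarith) (by positivity)), ?_⟩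
      intro t ht htd i hi hfi
      rcases Finset.mem_insert.mp hi with rfl | hi
      · have h1 : t ≤ -f i / (2 * (1 + |g i|)) := htd.trans (min_le_right _ _)
        have h2 : 0 < 2 * (1 + |g i|) := by positivity
        rw [le_div_iff₀ h2] at h1
        have h3 : g i ≤ |g i| := le_abs_self _
        nlinarith [abs_nonneg (g i)]
      · exact h t ht (htd.trans (min_le_left _ _)) i hi hfi
    · refine ⟨δ, hδ, ?_⟩
      intro t ht htd i hi hfi
      rcases Finset.mem_insert.mp hi with rfl | hi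
      · exact absurd hfi hp
      · exact h t ht htd i hi hfi

/-- coordinates of (p, q) in the frame of a square -/
private def al (x y u v p q : ℝ) : ℝ := (p - x) * u + (q - y) * v
private def be (x y u v p q : ℝ) : ℝ := (q - y) * u - (p - x) * v
private def InC (x y u v s p q : ℝ) : Prop :=
  (0 ≤ al x y u v p q ∧ al x y u v p q ≤ s) ∧ (0 ≤ be x y u v p q ∧ be x y u v p q ≤ s)
private def InO (x y u v s p q : ℝ) : Prop :=
  (0 < al x y u v p q ∧ al x y u v p q < s) ∧ (0 < be x y u v p q ∧ be x y u v p q < s)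

private lemma rotC {x y u v s p q : ℝ} (h : u ^ 2 + v ^ 2 = 1) :
    InC x y u v s p q ↔ InC (x + s * u) (y + s * v) (-v) u s p q := by
  have h1 : al (x + s * u) (y + s * v) (-v) u p q = be x y u v p q := by
    simp only [al, be]; ring
  have h2 : be (x + s * u) (y + s * v) (-v) u p q = s - al x y u v p q := by
    simp only [al, be]; linear_combination s * h
  simp only [InC, h1, h2]
  constructor
  · rintro ⟨⟨a1, a2⟩, ⟨a3, a4⟩⟩
    exact ⟨⟨a3, a4⟩, ⟨by linarith, by linarith⟩⟩
  · rintro ⟨⟨a1, a2⟩, ⟨a3, a4⟩⟩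
    exact ⟨⟨by linarith, by linarith⟩, ⟨a1, a2⟩⟩

private lemma rotO {x y u v s p q : ℝ} (h : u ^ 2 + v ^ 2 = 1) :
    InO x y u v s p q ↔ InO (x + s * u) (y + s * v) (-v) u s p q := by
  have h1 : al (x + s * u) (y + s * v) (-v) u p q = be x y u v p q := by
    simp only [al, be]; ring
  have h2 : be (x + s * u) (y + s * v) (-v) u p q = s - al x y u v p q := by
    simp only [al, be]; linear_combination s * h
  simp only [InO, h1, h2]
  constructor
  · rintro ⟨⟨a1, a2⟩, ⟨a3, a4⟩⟩
    exact ⟨⟨a3, a4⟩, ⟨by linarith, by linarith⟩⟩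
  · rintro ⟨⟨a1, a2⟩, ⟨a3, a4⟩⟩
    exact ⟨⟨by linarith, by linarith⟩, ⟨a1, a2⟩⟩

/-- P s x y u v: there is an equivalent frame in the first quadrant -/
private def Good (x y u v s : ℝ) : Prop :=
  ∃ x' y' u' v' : ℝ, 0 < u' ∧ 0 ≤ v' ∧ u' ^ 2 + v' ^ 2 = 1 ∧
    (∀ p q, InC x y u v s p q ↔ InC x' y' u' v' s p q) ∧
    (∀ p q, InO x y u v s p q ↔ InO x' y' u' v' s p q)

private lemma Good.rot {x y u v s : ℝ} (h : u ^ 2 + v ^ 2 = 1)
    (hg : Good (x + s * u) (y + s * v) (-v) u s) : Good x y u v s := by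
  obtain ⟨x', y', u', v', h1, h2, h3, h4, h5⟩ := hg
  exact ⟨x', y', u', v', h1, h2, h3, fun p q => (rotC h).trans (h4 p q),
    fun p q => (rotO h).trans (h5 p q)⟩

private lemma good0 {x y u v s : ℝ} (h : u ^ 2 + v ^ 2 = 1) (hu : 0 < u) (hv : 0 ≤ v) :
    Good x y u v s :=
  ⟨x, y, u, v, hu, hv, h, fun _ _ => Iff.rfl, fun _ _ => Iff.rfl⟩

private lemma good_all {x y u v s : ℝ} (h : u ^ 2 + v ^ 2 = 1) : Good x y u v s := by
  have h1 : (-v) ^ 2 + u ^ 2 = 1 := by linarith [neg_sq v]
  have h2 : (-u) ^ 2 + (-v) ^ 2 = 1 := by linarith [neg_sq v, neg_sq u]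
  have h3 : (- -v) ^ 2 + (-u) ^ 2 = 1 := by rw [neg_neg]; linarith [neg_sq u]
  rcases lt_trichotomy u 0 with hu | hu | hu
  · rcases le_or_gt v 0 with hv | hv
    · exact Good.rot h (Good.rot h1 (good0 h2 (by linarith) (by linarith)))
    · exact Good.rot h (Good.rot h1 (Good.rot h2 (good0 h3 (by linarith) (by linarith))))
  · rcases lt_trichotomy v 0 with hv | hv | hv
    · exact Good.rot h (good0 h1 (by linarith) (by linarith))
    · rw [hu, hv] at h; norm_num at h
    · exact Good.rot h (Good.rot h1 (Good.rot h2 (good0 h3 (by linarith) (by linarith))))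
  · rcases le_or_gt 0 v with hv | hv
    · exact good0 h hu hv
    · exact Good.rot h (good0 h1 (by linarith) (by linarith))

/-- closed tilings of [0,a] x [0,b] with normalised frames -/
private structure G (S : Finset ℕ) (x y u v : ℕ → ℝ) (a b : ℝ) : Prop where
  pos : ∀ k ∈ S, (0 : ℝ) < k
  nrm : ∀ k ∈ S, u k ^ 2 + v k ^ 2 = 1
  up : ∀ k ∈ S, 0 < u k
  vn : ∀ k ∈ S, 0 ≤ v k
  cov : ∀ p q : ℝ, 0 ≤ p → p ≤ a → 0 ≤ q → q ≤ b → ∃ k ∈ S, InC (x k) (y k) (u k) (v k) k p q
  sub : ∀ k ∈ S, ∀ p q : ℝ, InC (x k) (y k) (u k) (v k) k p q →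
    (0 ≤ p ∧ p ≤ a) ∧ (0 ≤ q ∧ q ≤ b)
  disj : ∀ j ∈ S, ∀ k ∈ S, ∀ p q : ℝ, InO (x j) (y j) (u j) (v j) j p q →
    InO (x k) (y k) (u k) (v k) k p q → j = k

private lemma mem_rectangle {z w p : ℂ} {a b : ℝ} (hw : w.re ^ 2 + w.im ^ 2 = 1) :
    p ∈ rectangle z w a b ↔ (0 ≤ al z.re z.im w.re w.im p.re p.im ∧
      al z.re z.im w.re w.im p.re p.im ≤ a) ∧ (0 ≤ be z.re z.im w.re w.im p.re p.im ∧
      be z.re z.im w.re w.im p.re p.im ≤ b) := by
  constructor
  · rintro ⟨α, β, h1, h2, h3, h4, rfl⟩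
    have e1 : al z.re z.im w.re w.im (z + w * (α + β * Complex.I)).re
        (z + w * (α + β * Complex.I)).im = α := by
      simp only [al, Complex.add_re, Complex.mul_re, Complex.ofReal_re, Complex.add_im,
        Complex.mul_im, Complex.ofReal_im, Complex.I_re, Complex.I_im]
      linear_combination α * hw
    have e2 : be z.re z.im w.re w.im (z + w * (α + β * Complex.I)).re
        (z + w * (α + β * Complex.I)).im = β := by
      simp only [be, Complex.add_re, Complex.mul_re, Complex.ofReal_re, Complex.add_im,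
        Complex.mul_im, Complex.ofReal_im, Complex.I_re, Complex.I_im]
      linear_combination β * hw
    rw [e1, e2]
    exact ⟨⟨h1, h2⟩, ⟨h3, h4⟩⟩
  · rintro ⟨⟨h1, h2⟩, ⟨h3, h4⟩⟩
    refine ⟨_, _, h1, h2, h3, h4, ?_⟩
    apply Complex.ext
    · simp only [al, be, Complex.add_re, Complex.mul_re, Complex.ofReal_re, Complex.add_im,
        Complex.mul_im, Complex.ofReal_im, Complex.I_re, Complex.I_im]
      linear_combination (z.re - p.re) * hw
    · simp only [al, be, Complex.add_re, Complex.mul_re, Complex.ofReal_re, Complex.add_im,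
        Complex.mul_im, Complex.ofReal_im, Complex.I_re, Complex.I_im]
      linear_combination (z.im - p.im) * hw

private lemma mem_interior_rectangle {z w p : ℂ} {a b : ℝ} (hw : w.re ^ 2 + w.im ^ 2 = 1)
    (h1 : 0 < al z.re z.im w.re w.im p.re p.im) (h2 : al z.re z.im w.re w.im p.re p.im < a)
    (h3 : 0 < be z.re z.im w.re w.im p.re p.im) (h4 : be z.re z.im w.re w.im p.re p.im < b) :
    p ∈ interior (rectangle z w a b) := by
  rw [mem_interior]
  refine ⟨{p : ℂ | (0 < al z.re z.im w.re w.im p.re p.im ∧ al z.re z.im w.re w.im p.re p.im < a)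
    ∧ (0 < be z.re z.im w.re w.im p.re p.im ∧ be z.re z.im w.re w.im p.re p.im < b)}, ?_, ?_,
    ⟨⟨h1, h2⟩, ⟨h3, h4⟩⟩⟩
  · rintro r ⟨⟨r1, r2⟩, ⟨r3, r4⟩⟩
    exact (mem_rectangle hw).mpr ⟨⟨r1.le, r2.le⟩, ⟨r3.le, r4.le⟩⟩
  · have c1 : Continuous (fun p : ℂ => al z.re z.im w.re w.im p.re p.im) := by
      unfold al
      exact ((Complex.continuous_re.sub continuous_const).mul continuous_const).add
        ((Complex.continuous_im.sub continuous_const).mul continuous_const)
    have c2 : Continuous (fun p : ℂ => be z.re z.im w.re w.im p.re p.im) := by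
      unfold be
      exact ((Complex.continuous_im.sub continuous_const).mul continuous_const).sub
        ((Complex.continuous_re.sub continuous_const).mul continuous_const)
    exact ((isOpen_lt continuous_const c1).inter (isOpen_lt c1 continuous_const)).inter
      ((isOpen_lt continuous_const c2).inter (isOpen_lt c2 continuous_const))

private lemma norm_one {w : ℂ} (h : ‖w‖ = 1) : w.re ^ 2 + w.im ^ 2 = 1 := by
  have := Complex.sq_norm w
  rw [h, Complex.normSq_apply] at this
  linarith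

/-- a square in the coordinates of the rectangle -/
private lemma frame {z w z₀ w₀ : ℂ} (hw : w.re ^ 2 + w.im ^ 2 = 1)
    (h0 : w₀.re ^ 2 + w₀.im ^ 2 = 1) (s : ℝ) :
    ∃ x y u v : ℝ, 0 < u ∧ 0 ≤ v ∧ u ^ 2 + v ^ 2 = 1 ∧
      (∀ p q : ℝ, z₀ + w₀ * (p + q * Complex.I) ∈ rectangle z w s s ↔ InC x y u v s p q) ∧
      (∀ p q : ℝ, InO x y u v s p q →
        z₀ + w₀ * (p + q * Complex.I) ∈ interior (rectangle z w s s)) := by
  have hn : (w.re * w₀.re + w.im * w₀.im) ^ 2 + (w.im * w₀.re - w.re * w₀.im) ^ 2 = 1 := by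
    have : (w.re * w₀.re + w.im * w₀.im) ^ 2 + (w.im * w₀.re - w.re * w₀.im) ^ 2 =
        (w.re ^ 2 + w.im ^ 2) * (w₀.re ^ 2 + w₀.im ^ 2) := by ring
    rw [this, hw, h0, one_mul]
  obtain ⟨x, y, u, v, h1, h2, h3, h4, h5⟩ := good_all
    (x := (z.re - z₀.re) * w₀.re + (z.im - z₀.im) * w₀.im)
    (y := (z.im - z₀.im) * w₀.re - (z.re - z₀.re) * w₀.im) (s := s) hn
  have e1 : ∀ p q : ℝ, al z.re z.im w.re w.im (z₀ + w₀ * (p + q * Complex.I)).re
      (z₀ + w₀ * (p + q * Complex.I)).im =
      al ((z.re - z₀.re) * w₀.re + (z.im - z₀.im) * w₀.im)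
        ((z.im - z₀.im) * w₀.re - (z.re - z₀.re) * w₀.im)
        (w.re * w₀.re + w.im * w₀.im) (w.im * w₀.re - w.re * w₀.im) p q := by
    intro p q
    simp only [al, Complex.add_re, Complex.mul_re, Complex.ofReal_re, Complex.add_im,
      Complex.mul_im, Complex.ofReal_im, Complex.I_re, Complex.I_im]
    linear_combination ((z.re - z₀.re) * w.re + (z.im - z₀.im) * w.im) * h0
  have e2 : ∀ p q : ℝ, be z.re z.im w.re w.im (z₀ + w₀ * (p + q * Complex.I)).re
      (z₀ + w₀ * (p + q * Complex.I)).im =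
      be ((z.re - z₀.re) * w₀.re + (z.im - z₀.im) * w₀.im)
        ((z.im - z₀.im) * w₀.re - (z.re - z₀.re) * w₀.im)
        (w.re * w₀.re + w.im * w₀.im) (w.im * w₀.re - w.re * w₀.im) p q := by
    intro p q
    simp only [be, Complex.add_re, Complex.mul_re, Complex.ofReal_re, Complex.add_im,
      Complex.mul_im, Complex.ofReal_im, Complex.I_re, Complex.I_im]
    linear_combination ((z.im - z₀.im) * w.re - (z.re - z₀.re) * w.im) * h0
  refine ⟨x, y, u, v, h1, h2, h3, ?_, ?_⟩
  · intro p q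
    rw [mem_rectangle hw, e1, e2]
    exact h4 p q
  · intro p q hpq
    obtain ⟨⟨a1, a2⟩, ⟨a3, a4⟩⟩ := (h5 p q).mpr hpq
    refine mem_interior_rectangle hw ?_ ?_ ?_ ?_
    · rw [e1]; exact a1
    · rw [e1]; exact a2
    · rw [e2]; exact a3
    · rw [e2]; exact a4

private lemma exists_G {m M : ℕ} (hm : 1 ≤ m) (h : TilesRectangle m M) :
    ∃ (x y u v : ℕ → ℝ) (a b : ℝ), 0 < a ∧ 0 < b ∧ G (Finset.Icc m M) x y u v a b := by
  obtain ⟨z, w, z₀, w₀, a, b, ha, hb, hw0, hw, hdis, hun⟩ := h
  have h0 := norm_one hw0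
  have hw' : ∀ k ∈ Finset.Icc m M, (w k).re ^ 2 + (w k).im ^ 2 = 1 := fun k hk =>
    norm_one (hw k (Finset.mem_Icc.mp hk).1 (Finset.mem_Icc.mp hk).2)
  have hex : ∀ k : ℕ, ∃ t : ℝ × ℝ × ℝ × ℝ, k ∈ Finset.Icc m M →
      0 < t.2.2.1 ∧ 0 ≤ t.2.2.2 ∧ t.2.2.1 ^ 2 + t.2.2.2 ^ 2 = 1 ∧
      (∀ p q : ℝ, z₀ + w₀ * (p + q * Complex.I) ∈ rectangle (z k) (w k) k k ↔
        InC t.1 t.2.1 t.2.2.1 t.2.2.2 k p q) ∧
      (∀ p q : ℝ, InO t.1 t.2.1 t.2.2.1 t.2.2.2 k p q →
        z₀ + w₀ * (p + q * Complex.I) ∈ interior (rectangle (z k) (w k) k k)) := by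
    intro k
    by_cases hk : k ∈ Finset.Icc m M
    · obtain ⟨x, y, u, v, h1, h2, h3, h4, h5⟩ := frame (z := z k) (z₀ := z₀) (hw' k hk) h0 (k : ℝ)
      exact ⟨(x, y, u, v), fun _ => ⟨h1, h2, h3, h4, h5⟩⟩
    · exact ⟨0, fun hk' => absurd hk' hk⟩
  choose t ht using hex
  have hR : ∀ p q : ℝ, z₀ + w₀ * (p + q * Complex.I) ∈ rectangle z₀ w₀ a b ↔
      (0 ≤ p ∧ p ≤ a) ∧ (0 ≤ q ∧ q ≤ b) := by
    intro p q
    rw [mem_rectangle h0]
    have e1 : al z₀.re z₀.im w₀.re w₀.im (z₀ + w₀ * (p + q * Complex.I)).re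
        (z₀ + w₀ * (p + q * Complex.I)).im = p := by
      simp only [al, Complex.add_re, Complex.mul_re, Complex.ofReal_re, Complex.add_im,
        Complex.mul_im, Complex.ofReal_im, Complex.I_re, Complex.I_im]
      linear_combination p * h0
    have e2 : be z₀.re z₀.im w₀.re w₀.im (z₀ + w₀ * (p + q * Complex.I)).re
        (z₀ + w₀ * (p + q * Complex.I)).im = q := by
      simp only [be, Complex.add_re, Complex.mul_re, Complex.ofReal_re, Complex.add_im,
        Complex.mul_im, Complex.ofReal_im, Complex.I_re, Complex.I_im]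
      linear_combination q * h0
    rw [e1, e2]
  refine ⟨fun k => (t k).1, fun k => (t k).2.1, fun k => (t k).2.2.1, fun k => (t k).2.2.2,
    a, b, ha, hb, ?_⟩
  exact
    { pos := fun k hk => by
        rw [Finset.mem_Icc] at hk
        exact_mod_cast (by omega : 0 < k)
      nrm := fun k hk => (ht k hk).2.2.1
      up := fun k hk => (ht k hk).1
      vn := fun k hk => (ht k hk).2.1
      cov := fun p q h1 h2 h3 h4 => by
        have hmem := (hR p q).mpr ⟨⟨h1, h2⟩, ⟨h3, h4⟩⟩
        rw [← hun] at hmem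
        simp only [mem_iUnion] at hmem
        obtain ⟨k, hk, hk'⟩ := hmem
        have hk2 : k ∈ Finset.Icc m M := Finset.mem_Icc.mpr hk
        exact ⟨k, hk2, ((ht k hk2).2.2.2.1 p q).mp hk'⟩
      sub := fun k hk p q hpq => by
        have h1 := ((ht k hk).2.2.2.1 p q).mpr hpq
        have h2 : z₀ + w₀ * (p + q * Complex.I) ∈
            (⋃ k ∈ Icc m M, rectangle (z k) (w k) k k) := by
          simp only [mem_iUnion]
          exact ⟨k, Finset.mem_Icc.mp hk, h1⟩
        rw [hun] at h2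
        exact (hR p q).mp h2
      disj := fun j hj k hk p q hj' hk' => by
        by_contra hjk
        have h1 := (ht j hj).2.2.2.2 p q hj'
        have h2 := (ht k hk).2.2.2.2 p q hk'
        rw [Finset.mem_Icc] at hj hk
        exact Set.disjoint_left.mp (hdis j k hj.1 hj.2 hk.1 hk.2 hjk) h1 h2 }

/-- all squares of a tiling are parallel to the sides of the rectangle -/
private lemma G.parallel {S : Finset ℕ} {x y u v : ℕ → ℝ} {a b : ℝ} (h : G S x y u v a b) :
    ∀ k ∈ S, v k = 0 := by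
  classical
  by_contra hcon
  push Not at hcon
  obtain ⟨k0, hk0, hv0⟩ := hcon
  set F := S.filter (fun k => 0 < v k) with hF
  have hne : F.Nonempty := ⟨k0, by
    simp only [hF, Finset.mem_filter]
    exact ⟨hk0, lt_of_le_of_ne (h.vn k0 hk0) (Ne.symm hv0)⟩⟩
  obtain ⟨k, hkF, hmin⟩ := Finset.exists_min_image F y hne
  obtain ⟨hk, hV⟩ := by simpa only [hF, Finset.mem_filter] using hkF
  have hs := h.pos k hk
  have hU := h.up k hk
  have hn := h.nrm k hk
  set X := x k with hX
  set Y := y k with hY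
  set U := u k with hUd
  set V := v k with hVd
  have hU1 : U ≤ 1 := by nlinarith [sq_nonneg V]
  have hV1 : V ≤ 1 := by nlinarith [sq_nonneg U]
  -- corners of the square
  have c0 := h.sub k hk X Y (by
    simp only [InC, al, be, ← hX, ← hY, sub_self, zero_mul, add_zero]
    exact ⟨⟨le_rfl, hs.le⟩, ⟨le_rfl, hs.le⟩⟩)
  have c1 := h.sub k hk (X + k * U) (Y + k * V) (by
    have e1 : al (x k) (y k) (u k) (v k) (X + k * U) (Y + k * V) = k := by
      simp only [al, ← hX, ← hY, ← hUd, ← hVd]; linear_combination (k : ℝ) * hn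
    have e2 : be (x k) (y k) (u k) (v k) (X + k * U) (Y + k * V) = 0 := by
      simp only [be, ← hX, ← hY, ← hUd, ← hVd]; ring
    rw [InC, e1, e2]
    exact ⟨⟨hs.le, le_rfl⟩, ⟨le_rfl, hs.le⟩⟩)
  -- a small t
  obtain ⟨δ1, p1, g1⟩ := gap2 S (fun j => al (x j) (y j) (u j) (v j) X Y)
    (fun j => U * u j + V / 2 * v j)
  obtain ⟨δ2, p2, g2⟩ := gap2 S (fun j => (j : ℝ) - al (x j) (y j) (u j) (v j) X Y)
    (fun j => -(U * u j + V / 2 * v j))
  obtain ⟨δ3, p3, g3⟩ := gap2 S (fun j => be (x j) (y j) (u j) (v j) X Y)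
    (fun j => V / 2 * u j - U * v j)
  obtain ⟨δ4, p4, g4⟩ := gap2 S (fun j => (j : ℝ) - be (x j) (y j) (u j) (v j) X Y)
    (fun j => -(V / 2 * u j - U * v j))
  obtain ⟨t, t0, t1, t2, t3, t4, t5⟩ : ∃ t : ℝ, 0 < t ∧ t ≤ δ1 ∧ t ≤ δ2 ∧ t ≤ δ3 ∧ t ≤ δ4 ∧
      t ≤ k := by
    refine ⟨min (min (min δ1 δ2) (min δ3 δ4)) k, ?_, ?_, ?_, ?_, ?_, ?_⟩
    · exact lt_min (lt_min (lt_min p1 p2) (lt_min p3 p4)) hs
    · exact (min_le_left _ _).trans ((min_le_left _ _).trans (min_le_left _ _))
    · exact (min_le_left _ _).trans ((min_le_left _ _).trans (min_le_right _ _))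
    · exact (min_le_left _ _).trans ((min_le_right _ _).trans (min_le_left _ _))
    · exact (min_le_left _ _).trans ((min_le_right _ _).trans (min_le_right _ _))
    · exact min_le_right _ _
  obtain ⟨j, hj, hPj⟩ := h.cov (X + t * U) (Y + t * (V / 2)) (by nlinarith [c0.1.1])
    (by nlinarith [c1.1.2]) (by nlinarith [c0.2.1]) (by nlinarith [c1.2.2])
  have ea : al (x j) (y j) (u j) (v j) (X + t * U) (Y + t * (V / 2)) =
      al (x j) (y j) (u j) (v j) X Y + t * (U * u j + V / 2 * v j) := by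
    simp only [al]; ring
  have eb : be (x j) (y j) (u j) (v j) (X + t * U) (Y + t * (V / 2)) =
      be (x j) (y j) (u j) (v j) X Y + t * (V / 2 * u j - U * v j) := by
    simp only [be]; ring
  -- the vertex lies in square j
  have hvj : InC (x j) (y j) (u j) (v j) j X Y := by
    obtain ⟨⟨q1, q2⟩, ⟨q3, q4⟩⟩ := hPj
    rw [ea] at q1 q2
    rw [eb] at q3 q4
    refine ⟨⟨?_, ?_⟩, ⟨?_, ?_⟩⟩
    · by_contra hlt
      push Not at hlt
      have := g1 t t0 t1 j hj hlt
      linarith
    · by_contra hlt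
      push Not at hlt
      have := g2 t t0 t2 j hj (by linarith)
      linarith
    · by_contra hlt
      push Not at hlt
      have := g3 t t0 t3 j hj hlt
      linarith
    · by_contra hlt
      push Not at hlt
      have := g4 t t0 t4 j hj (by linarith)
      linarith
  have hjk : j ≠ k := by
    rintro rfl
    have : be (x j) (y j) (u j) (v j) (X + t * U) (Y + t * (V / 2)) = -(t * (U * V) / 2) := by
      simp only [be, ← hX, ← hY, ← hUd, ← hVd]; ring
    have h1 := hPj.2.1
    rw [this] at h1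
    have : 0 < t * (U * V) := by positivity
    linarith
  have hsj := h.pos j hj
  have huj := h.up j hj
  have hvj0 := h.vn j hj
  have hnj := h.nrm j hj
  have huj1 : u j ≤ 1 := by nlinarith [sq_nonneg (v j)]
  have hvj1 : v j ≤ 1 := by nlinarith [sq_nonneg (u j)]
  rcases lt_or_eq_of_le hvj0 with hvpos | hvz
  · -- j is tilted
    have hjF : j ∈ F := by
      simp only [hF, Finset.mem_filter]; exact ⟨hj, hvpos⟩
    have hYj : Y ≤ y j := hmin j hjF
    obtain ⟨⟨q1, q2⟩, ⟨q3, q4⟩⟩ := hvj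
    have r1 : Y - y j = al (x j) (y j) (u j) (v j) X Y * v j +
        be (x j) (y j) (u j) (v j) X Y * u j := by
      simp only [al, be]; linear_combination -(Y - y j) * hnj
    have r2 : X - x j = al (x j) (y j) (u j) (v j) X Y * u j -
        be (x j) (y j) (u j) (v j) X Y * v j := by
      simp only [al, be]; linear_combination -(X - x j) * hnj
    have m1 : 0 ≤ al (x j) (y j) (u j) (v j) X Y * v j := mul_nonneg q1 hvpos.le
    have m2 : 0 ≤ be (x j) (y j) (u j) (v j) X Y * u j := mul_nonneg q3 huj.le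
    have m3 : al (x j) (y j) (u j) (v j) X Y * v j = 0 := by linarith
    have m4 : be (x j) (y j) (u j) (v j) X Y * u j = 0 := by linarith
    have m5 : al (x j) (y j) (u j) (v j) X Y = 0 := by
      rcases mul_eq_zero.mp m3 with m | m
      · exact m
      · linarith
    have m6 : be (x j) (y j) (u j) (v j) X Y = 0 := by
      rcases mul_eq_zero.mp m4 with m | m
      · exact m
      · linarith
    rw [m5, m6] at r1 r2
    have n1 : y j = Y := by linarith
    have n2 : x j = X := by linarith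
    refine hjk (h.disj j hj k hk X (Y + min (j : ℝ) k / 2) ?_ ?_)
    · have l1 : min (j : ℝ) k ≤ j := min_le_left _ _
      have l2 : 0 < min (j : ℝ) k := lt_min hsj hs
      simp only [InO, al, be, n1, n2]
      refine ⟨⟨?_, ?_⟩, ⟨?_, ?_⟩⟩ <;> nlinarith
    · have l1 : min (j : ℝ) k ≤ k := min_le_right _ _
      have l2 : 0 < min (j : ℝ) k := lt_min hsj hs
      simp only [InO, al, be, ← hX, ← hY, ← hUd, ← hVd]
      refine ⟨⟨?_, ?_⟩, ⟨?_, ?_⟩⟩ <;> nlinarith
  · -- j is parallel to the axes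
    have hvz' : v j = 0 := hvz.symm
    have huj' : u j = 1 := by
      rw [hvz'] at hnj
      nlinarith
    obtain ⟨⟨q1, q2⟩, ⟨q3, q4⟩⟩ := hvj
    obtain ⟨⟨q5, q6⟩, ⟨q7, q8⟩⟩ := hPj
    simp only [al, be, hvz', huj', mul_one, mul_zero, add_zero, sub_zero] at q1 q2 q3 q4 q5 q6 q7 q8
    have tU : 0 < t * U := by positivity
    have tV : 0 < t * V := by positivity
    refine hjk (h.disj j hj k hk (X + t / 8 * U) (Y + t / 4 * V) ?_ ?_)
    · simp only [InO, al, be, hvz', huj', mul_one, mul_zero, add_zero, sub_zero]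
      refine ⟨⟨?_, ?_⟩, ⟨?_, ?_⟩⟩ <;> nlinarith
    · have f1 : al (x k) (y k) (u k) (v k) (X + t / 8 * U) (Y + t / 4 * V) =
          t / 8 * U ^ 2 + t / 4 * V ^ 2 := by
        simp only [al, ← hX, ← hY, ← hUd, ← hVd]; ring
      have f2 : be (x k) (y k) (u k) (v k) (X + t / 8 * U) (Y + t / 4 * V) = t / 8 * (U * V) := by
        simp only [be, ← hX, ← hY, ← hUd, ← hVd]; ring
      rw [InO, f1, f2]
      have hUV : U * V ≤ 1 := by nlinarith
      refine ⟨⟨by positivity, ?_⟩, ⟨by positivity, ?_⟩⟩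
      · nlinarith [sq_nonneg U, sq_nonneg V]
      · nlinarith

private lemma exists_T {m M : ℕ} (hm : 1 ≤ m) (h : TilesRectangle m M) :
    ∃ (x y : ℕ → ℝ) (a b : ℝ), 0 < a ∧ 0 < b ∧
      T (Finset.Icc m M) x y (fun k => (k : ℝ)) 0 a 0 b := by
  obtain ⟨x, y, u, v, a, b, ha, hb, hG⟩ := exists_G hm h
  refine ⟨x, y, a, b, ha, hb, ?_⟩
  have hpar : ∀ k ∈ Finset.Icc m M, v k = 0 ∧ u k = 1 := by
    intro k hk
    have h1 := hG.parallel k hk
    refine ⟨h1, ?_⟩
    have h2 := hG.nrm k hk
    have h3 := hG.up k hk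
    rw [h1] at h2
    nlinarith
  have hC : ∀ k ∈ Finset.Icc m M, ∀ p q : ℝ, InC (x k) (y k) (u k) (v k) k p q ↔
      (x k ≤ p ∧ p ≤ x k + k) ∧ (y k ≤ q ∧ q ≤ y k + k) := by
    intro k hk p q
    rw [(hpar k hk).1, (hpar k hk).2]
    simp only [InC, al, be, mul_one, mul_zero, add_zero, sub_zero]
    constructor
    · rintro ⟨⟨h1, h2⟩, ⟨h3, h4⟩⟩
      exact ⟨⟨by linarith, by linarith⟩, ⟨by linarith, by linarith⟩⟩
    · rintro ⟨⟨h1, h2⟩, ⟨h3, h4⟩⟩
      exact ⟨⟨by linarith, by linarith⟩, ⟨by linarith, by linarith⟩⟩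
  have hO : ∀ k ∈ Finset.Icc m M, ∀ p q : ℝ,
      (x k < p ∧ p < x k + k) ∧ (y k < q ∧ q < y k + k) → InO (x k) (y k) (u k) (v k) k p q := by
    intro k hk p q
    rw [(hpar k hk).1, (hpar k hk).2]
    simp only [InO, al, be, mul_one, mul_zero, add_zero, sub_zero]
    rintro ⟨⟨h1, h2⟩, ⟨h3, h4⟩⟩
    exact ⟨⟨by linarith, by linarith⟩, ⟨by linarith, by linarith⟩⟩
  have hpos := hG.pos
  have hin : ∀ i ∈ Finset.Icc m M, ∀ p q : ℝ, x i ≤ p → p ≤ x i + i → y i ≤ q →
      q ≤ y i + i → (0 ≤ p ∧ p ≤ a) ∧ (0 ≤ q ∧ q ≤ b) := fun i hi p q h1 h2 h3 h4 =>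
    hG.sub i hi p q ((hC i hi p q).mpr ⟨⟨h1, h2⟩, ⟨h3, h4⟩⟩)
  exact
    { pos := hpos
      xl := fun i hi => by
        have := hpos i hi
        exact (hin i hi (x i) (y i) le_rfl (by linarith) le_rfl (by linarith)).1.1
      xr := fun i hi => by
        have := hpos i hi
        exact (hin i hi (x i + i) (y i) (by linarith) le_rfl le_rfl (by linarith)).1.2
      yl := fun i hi => by
        have := hpos i hi
        exact (hin i hi (x i) (y i) le_rfl (by linarith) le_rfl (by linarith)).2.1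
      yr := fun i hi => by
        have := hpos i hi
        exact (hin i hi (x i) (y i + i) le_rfl (by linarith) (by linarith) le_rfl).2.2
      uniq := fun i hi j hj p q h1 h2 h3 h4 g1 g2 g3 g4 => by
        obtain ⟨δ, hδ, hδ'⟩ := gap ({i, j} : Finset ℕ) (fun k => x k + k) p
        obtain ⟨η, hη, hη'⟩ := gap ({i, j} : Finset ℕ) (fun k => y k + k) q
        refine hG.disj i hi j hj (p + δ) (q + η) (hO i hi _ _ ?_) (hO j hj _ _ ?_)
        · exact ⟨⟨by linarith, hδ' i (by simp) h2⟩, ⟨by linarith, hη' i (by simp) h4⟩⟩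
        · exact ⟨⟨by linarith, hδ' j (by simp) g2⟩, ⟨by linarith, hη' j (by simp) g4⟩⟩
      cov := fun p q hp hpb hq hqd => by
        obtain ⟨δ, hδ, hδ'⟩ := gap (Finset.Icc m M) x p
        obtain ⟨η, hη, hη'⟩ := gap (Finset.Icc m M) y q
        set δ1 := min δ (a - p) with hδ1
        set η1 := min η (b - q) with hη1
        have e1 : 0 < δ1 := lt_min hδ (by linarith)
        have e2 : 0 < η1 := lt_min hη (by linarith)
        have e3 : δ1 ≤ δ := min_le_left _ _
        have e4 : δ1 ≤ a - p := min_le_right _ _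
        have e5 : η1 ≤ η := min_le_left _ _
        have e6 : η1 ≤ b - q := min_le_right _ _
        obtain ⟨i, hi, hi'⟩ := hG.cov (p + δ1) (q + η1) (by linarith) (by linarith)
          (by linarith) (by linarith)
        obtain ⟨⟨h1, h2⟩, ⟨h3, h4⟩⟩ := (hC i hi _ _).mp hi'
        refine ⟨i, hi, ?_, by linarith, ?_, by linarith⟩
        · by_contra hlt
          push Not at hlt
          have := hδ' i hi hlt
          linarith
        · by_contra hlt
          push Not at hlt
          have := hη' i hi hlt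
          linarith }

/-- If the squares with sides m, m+1, ..., M tile a rectangle, then 3 m + 4 ≤ M. -/
theorem result : ∀ m M : ℕ, 1 ≤ m → m < M → TilesRectangle m M → 3 * m + 4 ≤ M := by
  intro m M hm hmM h
  obtain ⟨x, y, a, b, ha, hb, hT⟩ := exists_T hm h
  have h4 := main (fun k : ℕ => (k : ℝ)) (m : ℝ) (Finset.Icc m M).card (Finset.Icc m M) rfl
    (by rw [Nat.card_Icc]; omega)
    (fun i _ j _ e => by exact_mod_cast e)
    (fun i hi => by exact_mod_cast (Finset.mem_Icc.mp hi).1)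
    x y 0 a 0 b ha hb hT
  have hsub : (Finset.Icc m M).filter (fun i : ℕ => 3 * (m : ℝ) < (i : ℝ)) ⊆
      Finset.Icc (3 * m + 1) M := by
    intro i hi
    rw [Finset.mem_filter] at hi
    rw [Finset.mem_Icc]
    have h1 : 3 * m < i := by exact_mod_cast hi.2
    exact ⟨by omega, (Finset.mem_Icc.mp hi.1).2⟩
  have h5 := h4.trans (Finset.card_le_card hsub)
  rw [Nat.card_Icc] at h5
  omega

end Pool.Agent.Results.MP_db401f_co.SmallRatio
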